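import Pool.Agent.T9h20.TE.Spec
import Mathlib.Algebra.Polynomial.RuleOfSigns
import Mathlib.Topology.Order.IntermediateValue

/-!
# A sparse polynomial at two shifts of a random variable (piece B of TE)
-/

set_option autoImplicit false

open MeasureTheory Set Filter Topology
open scoped ENNReal NNReal

namespace Pool.Agent.T9h66.TE

open Pool.Agent.T9h20.TE

/-- The polynomial. -/
noncomputable def pol {n : ℕ} (A : Fin n → ℝ) (al : Fin n → ℕ) : Polynomial ℝ :=
  ∑ i, Polynomial.C (A i) * Polynomial.X ^ al i

theorem eval_pol {n : ℕ} (A : Fin n → ℝ) (al : Fin n → ℕ) (u : ℝ) :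
    (pol A al).eval u = ∑ i, A i * u ^ al i := by
  simp [pol, Polynomial.eval_finsetSum]

theorem support_pol {n : ℕ} (A : Fin n → ℝ) (al : Fin n → ℕ) :
    (pol A al).support.card ≤ n := by
  have h : (pol A al).support ⊆ Finset.univ.image al := by
    intro m hm
    rw [Polynomial.mem_support_iff] at hm
    by_contra hne
    apply hm
    rw [pol, Polynomial.finsetSum_coeff]
    refine Finset.sum_eq_zero fun i _ => ?_
    rw [Polynomial.coeff_C_mul_X_pow, if_neg]
    rintro rfl
    exact hne (Finset.mem_image_of_mem _ (Finset.mem_univ i))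
  calc (pol A al).support.card ≤ (Finset.univ.image al).card := Finset.card_le_card h
    _ ≤ (Finset.univ : Finset (Fin n)).card := Finset.card_image_le
    _ = n := by simp

theorem sv_lt (N : ℕ) : ∀ P : Polynomial ℝ, P ≠ 0 → P.support.card ≤ N →
    P.signVariations + 1 ≤ P.support.card := by
  induction N with
  | zero =>
    intro P hP h
    exact absurd (Polynomial.card_support_eq_zero.mp (Nat.le_zero.mp h)) hP
  | succ N ih =>
    intro P hP h
    have hpos : 0 < P.support.card := by
      rw [Nat.pos_iff_ne_zero]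
      intro h0
      exact hP (Polynomial.card_support_eq_zero.mp h0)
    by_cases he : P.eraseLead = 0
    · rw [Polynomial.signVariations_eq_eraseLead_add_ite hP, he]
      have : ¬ (SignType.sign P.leadingCoeff = -SignType.sign (0 : Polynomial ℝ).leadingCoeff) := by
        simp [hP]
      rw [if_neg this]
      simp only [Polynomial.signVariations_zero, zero_add]
      omega
    · have hlt := Polynomial.eraseLead_support_card_lt hP
      have h1 := ih P.eraseLead he (by omega)
      have h2 := Polynomial.signVariations_le_eraseLead_succ P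
      omega

theorem pos_roots {n : ℕ} (A : Fin n → ℝ) (al : Fin n → ℕ) (h : pol A al ≠ 0) :
    ((pol A al).roots.toFinset.filter fun u => 0 < u).card + 1 ≤ n := by
  have h1 : ((pol A al).roots.toFinset.filter fun u => 0 < u).card ≤
      (pol A al).roots.countP (fun u => 0 < u) := by
    rw [Multiset.countP_eq_card_filter, ← Multiset.toFinset_filter]
    exact Multiset.toFinset_card_le _
  have h2 := Polynomial.roots_countP_pos_le_signVariations (pol A al)
  have h3 := sv_lt _ (pol A al) h le_rfl
  have h4 := support_pol A al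
  omega

theorem eval_neg {n : ℕ} (A : Fin n → ℝ) (al : Fin n → ℕ) (u : ℝ) :
    (pol (fun i => A i * (-1) ^ al i) al).eval u = (pol A al).eval (-u) := by
  rw [eval_pol, eval_pol]
  refine Finset.sum_congr rfl fun i _ => ?_
  rw [neg_pow u, mul_assoc]

theorem card_roots {n : ℕ} (A : Fin n → ℝ) (al : Fin n → ℕ) (h : pol A al ≠ 0) :
    (pol A al).roots.toFinset.card ≤ 2 * n := by
  classical
  set Q := pol (fun i => A i * (-1) ^ al i) al with hQ
  have hQ0 : Q ≠ 0 := by
    intro hz
    apply h
    refine Polynomial.funext fun u => ?_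
    have := eval_neg A al (-u)
    rw [← hQ, hz] at this
    simpa using this.symm
  have h1 := pos_roots A al h
  have h2 : (Q.roots.toFinset.filter fun u => 0 < u).card + 1 ≤ n := pos_roots _ al hQ0
  have hsub : (pol A al).roots.toFinset ⊆
      (((pol A al).roots.toFinset.filter fun u => 0 < u) ∪
        (Q.roots.toFinset.filter fun u => 0 < u).image fun u => -u) ∪ {0} := by
    intro u hu
    simp only [Finset.mem_union, Finset.mem_filter, Finset.mem_image, Finset.mem_singleton]
    rcases lt_trichotomy u 0 with hlt | heq | hgt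
    · left; right
      refine ⟨-u, ⟨?_, by linarith⟩, by ring⟩
      rw [Multiset.mem_toFinset, Polynomial.mem_roots hQ0, Polynomial.IsRoot.def, hQ, eval_neg,
        neg_neg]
      rw [Multiset.mem_toFinset, Polynomial.mem_roots h] at hu
      exact hu
    · right; exact heq
    · left; left; exact ⟨hu, hgt⟩
  have h3 := Finset.card_le_card hsub
  have h4 := Finset.card_union_le (((pol A al).roots.toFinset.filter fun u => 0 < u) ∪
        (Q.roots.toFinset.filter fun u => 0 < u).image fun u => -u) {(0 : ℝ)}
  have h5 := Finset.card_union_le ((pol A al).roots.toFinset.filter fun u => 0 < u)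
        ((Q.roots.toFinset.filter fun u => 0 < u).image fun u => -u)
  have h6 : ((Q.roots.toFinset.filter fun u => 0 < u).image fun u => -u).card ≤
      (Q.roots.toFinset.filter fun u => 0 < u).card := Finset.card_image_le
  rw [Finset.card_singleton] at h4
  omega

theorem sh_Ico (ν : Measure ℝ) [IsProbabilityMeasure ν] (h : Sh ν) (a b : ℝ) (hab : a ≤ b) :
    ν (Ico a b) ≤ ENNReal.ofReal (b - a) := by
  have h1 := h (-(b - a)) (Iio a) measurableSet_Iio
  have h2 : (fun z => z + -(b - a)) ⁻¹' Iio a = Iio b := by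
    ext z; simp only [mem_preimage, mem_Iio]; constructor <;> intro h <;> linarith
  rw [h2] at h1
  have h3 : Iio b = Iio a ∪ Ico a b := (Iio_union_Ico_eq_Iio hab).symm
  have h4 : Disjoint (Iio a) (Ico a b) := by
    rw [Set.disjoint_left]
    intro z hz hz'
    exact absurd hz (not_lt.mpr hz'.1)
  rw [h3, measure_union h4 measurableSet_Ico] at h1
  have h5 : ν (Ico a b) ≤ ‖-(b - a)‖ₑ :=
    (ENNReal.add_le_add_iff_left (measure_ne_top ν (Iio a))).mp h1
  rw [enorm_neg, Real.enorm_of_nonneg (by linarith)] at h5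
  exact h5

theorem sh_Icc (ν : Measure ℝ) [IsProbabilityMeasure ν] (h : Sh ν) (a b : ℝ) (hab : a ≤ b) :
    ν (Icc a b) ≤ ENNReal.ofReal (b - a) := by
  refine ENNReal.le_of_forall_pos_le_add fun ε hε _ => ?_
  have hε' : (0 : ℝ) < ε := hε
  calc ν (Icc a b) ≤ ν (Ico a (b + ε)) := measure_mono fun z hz => ⟨hz.1, by
        have := hz.2; linarith⟩
    _ ≤ ENNReal.ofReal (b + ε - a) := sh_Ico ν h a _ (by linarith)
    _ = ENNReal.ofReal ((b - a) + ε) := by congr 1; ring
    _ ≤ ENNReal.ofReal (b - a) + ENNReal.ofReal ε := ENNReal.ofReal_add_le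
    _ = ENNReal.ofReal (b - a) + ε := by rw [ENNReal.ofReal_coe_nnreal]

/-- (B). -/
theorem sCross : SCross := by
  intro n A al ν _ hν x x'
  by_cases hP : pol A al = 0
  · have : {z : ℝ | ¬(0 ≤ ∑ i, A i * (z + x) ^ al i ↔ 0 ≤ ∑ i, A i * (z + x') ^ al i)} = ∅ := by
      ext z
      simp only [← eval_pol, hP, Polynomial.eval_zero, mem_ofPred_eq, mem_empty_iff_false,
        not_true_eq_false]
    rw [this, measure_empty]
    exact zero_le
  set R := (pol A al).roots.toFinset with hR
  have hsub : {z : ℝ | ¬(0 ≤ ∑ i, A i * (z + x) ^ al i ↔ 0 ≤ ∑ i, A i * (z + x') ^ al i)} ⊆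
      ⋃ r ∈ R, Icc (r - max x x') (r - min x x') := by
    intro z hz
    rw [mem_ofPred_eq] at hz
    simp only [← eval_pol] at hz
    have hc : ContinuousOn (fun u => (pol A al).eval u) (uIcc (z + x) (z + x')) :=
      (pol A al).continuous.continuousOn
    have h0 : (0 : ℝ) ∈ uIcc ((pol A al).eval (z + x)) ((pol A al).eval (z + x')) := by
      rw [mem_uIcc]
      by_cases h1 : 0 ≤ (pol A al).eval (z + x)
      · by_cases h2 : 0 ≤ (pol A al).eval (z + x')
        · exact absurd (iff_of_true h1 h2) hz
        · right; exact ⟨(not_le.mp h2).le, h1⟩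
      · by_cases h2 : 0 ≤ (pol A al).eval (z + x')
        · left; exact ⟨(not_le.mp h1).le, h2⟩
        · exact absurd (iff_of_false h1 h2) hz
    obtain ⟨r, hr, hr0⟩ := intermediate_value_uIcc hc h0
    simp only [mem_iUnion, exists_prop]
    refine ⟨r, ?_, ?_⟩
    · rw [hR, Multiset.mem_toFinset, Polynomial.mem_roots hP]
      exact hr0
    · rw [mem_uIcc] at hr
      rw [mem_Icc]
      have a1 := le_max_left x x'
      have a2 := le_max_right x x'
      have a3 := min_le_left x x'
      have a4 := min_le_right x x'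
      rcases hr with hr | hr
      · constructor <;> linarith [hr.1, hr.2]
      · constructor <;> linarith [hr.1, hr.2]
  have habs : max x x' - min x x' = |x' - x| := by
    rw [max_sub_min_eq_abs]
  calc ν {z : ℝ | ¬(0 ≤ ∑ i, A i * (z + x) ^ al i ↔ 0 ≤ ∑ i, A i * (z + x') ^ al i)}
      ≤ ν (⋃ r ∈ R, Icc (r - max x x') (r - min x x')) := measure_mono hsub
    _ ≤ ∑ r ∈ R, ν (Icc (r - max x x') (r - min x x')) := measure_biUnion_finset_le _ _
    _ ≤ ∑ _r ∈ R, ‖x' - x‖ₑ := by
        refine Finset.sum_le_sum fun r _ => ?_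
        refine (sh_Icc ν hν _ _ (by have := min_le_max (a := x) (b := x'); linarith)).trans ?_
        have : (r - min x x') - (r - max x x') = |x' - x| := by rw [← habs]; ring
        rw [this, ← Real.norm_eq_abs, ofReal_norm]
    _ = (R.card : ℝ≥0∞) * ‖x' - x‖ₑ := by rw [Finset.sum_const, nsmul_eq_mul]
    _ ≤ 2 * n * ‖x' - x‖ₑ := by
        gcongr
        have := card_roots A al hP
        calc (R.card : ℝ≥0∞) ≤ ((2 * n : ℕ) : ℝ≥0∞) := by exact_mod_cast this
          _ = 2 * n := by push_cast; rfl

end Pool.Agent.T9h66.TE
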